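import Pool.Agent.W745.RW.Stm

/-! Project GF (helper37): bumps and the fundamental domain. -/

set_option autoImplicit false
open MeasureTheory Filter Topology Complex Set
open scoped ContDiff Manifold

namespace Pool.Agent.K9h37.GF

open Pool.Agent.W745.RW (TF)

/-- smooth bump for a compact subset of an open set -/
lemma bumpK {U : Set ℂ} (hU : IsOpen U) {K : Set ℂ} (hK : IsCompact K) (hKU : K ⊆ U) :
    ∃ χ : ℂ → ℝ, TF U χ ∧ (∀ z, 0 ≤ χ z) ∧ (∀ z, χ z ≤ 1) ∧ ∀ z ∈ K, χ z = 1 := by
  obtain ⟨L, hL, h1, h2⟩ := exists_compact_between hK hU hKU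
  obtain ⟨f, f0, f1, f2⟩ := exists_contMDiffMap_zero_one_of_isClosed (n := ⊤) 𝓘(ℝ, ℂ)
    (s := (interior L)ᶜ) (t := K) isOpen_interior.isClosed_compl hK.isClosed
    (disjoint_left.2 fun z hz hz' => hz (h1 hz'))
  have sup : Function.support f ⊆ L := by
    intro z hz
    by_contra h
    exact hz (f0 (fun h' => h (interior_subset h')))
  have ts : tsupport f ⊆ L := closure_minimal sup hL.isClosed
  refine ⟨f, ⟨?_, HasCompactSupport.of_support_subset_isCompact hL sup, ts.trans h2⟩,
    fun z => (f2 z).1, fun z => (f2 z).2, fun z hz => f1 hz⟩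
  have := f.contMDiff
  exact this.contDiff

/-- the interior of the standard fundamental domain of the modular group -/
def FD : Set ℂ := {z | 0 < z.im ∧ |z.re| < 1 / 2 ∧ 1 < ‖z‖}

lemma FD_im {z : ℂ} (hz : z ∈ FD) : 1 / 2 < z.im := by
  obtain ⟨h1, h2, h3⟩ := hz
  have h4 : 1 < ‖z‖ ^ 2 := by nlinarith
  rw [Complex.sq_norm, Complex.normSq_apply] at h4
  have h5 := abs_lt.1 h2
  nlinarith

lemma FD_open : IsOpen FD := by
  have h1 : IsOpen {z : ℂ | 0 < z.im} := isOpen_lt continuous_const continuous_im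
  have h2 : IsOpen {z : ℂ | |z.re| < 1 / 2} := isOpen_lt continuous_re.abs continuous_const
  have h3 : IsOpen {z : ℂ | 1 < ‖z‖} := isOpen_lt continuous_const continuous_norm
  exact h1.inter (h2.inter h3)

lemma FD_fin : IntegrableOn (fun z : ℂ => 1 / z.im ^ 2) FD := by
  obtain ⟨S, hS⟩ : ∃ S : Set (ℝ × ℝ), S = Set.Icc (-1) 1 ×ˢ Set.Ioi (1 / 2 : ℝ) := ⟨_, rfl⟩
  have mS : MeasurableSet S := by
    rw [hS]; exact measurableSet_Icc.prod measurableSet_Ioi
  have h1 : FD ⊆ Complex.measurableEquivRealProd ⁻¹' S := by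
    intro z hz
    have h2 := FD_im hz
    have h3 := abs_lt.1 hz.2.1
    show (z.re, z.im) ∈ S
    rw [hS]
    exact ⟨⟨by simp only; linarith, by simp only; linarith⟩, h2⟩
  have h5 : IntegrableOn (fun y : ℝ => 1 / y ^ 2) (Set.Ioi (1 / 2)) := by
    have := integrableOn_Ioi_rpow_of_lt (a := -2) (by norm_num) (c := 1 / 2) (by norm_num)
    refine this.congr_fun (fun y hy => ?_) measurableSet_Ioi
    have y0 : 0 < y := lt_trans (by norm_num) hy
    show y ^ (-2 : ℝ) = 1 / y ^ 2
    rw [Real.rpow_neg y0.le, one_div]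
    norm_num
  have h6 : IntegrableOn (fun p : ℝ × ℝ => 1 / p.2 ^ 2) S := by
    rw [hS]
    have h7 : IntegrableOn (fun _ : ℝ => (1 : ℝ)) (Set.Icc (-1 : ℝ) 1) := by
      exact integrableOn_const (by simp)
    have := Integrable.mul_prod (μ := volume.restrict (Set.Icc (-1 : ℝ) 1))
      (ν := volume.restrict (Set.Ioi (1 / 2 : ℝ))) h7 h5
    simp only [one_mul] at this
    unfold IntegrableOn
    rw [Measure.volume_eq_prod, ← Measure.prod_restrict]
    exact this
  have h8 : IntegrableOn (fun z : ℂ => 1 / z.im ^ 2) (Complex.measurableEquivRealProd ⁻¹' S) :=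
    (Complex.volume_preserving_equiv_real_prod.integrableOn_comp_preimage
      Complex.measurableEquivRealProd.measurableEmbedding).2 h6
  exact h8.mono_set h1

end Pool.Agent.K9h37.GF
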