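import Mathlib

/-! Project GF (helper37): sets of integers of density zero and one. -/

set_option autoImplicit false
open Filter Topology

namespace Pool.Agent.K9h37.GF

noncomputable section

open Classical in
/-- the number of elements of `A` below `N` -/
def cnt (A : Set ℕ) (N : ℕ) : ℕ := ((Finset.range N).filter (fun n => n ∈ A)).card

/-- density zero -/
def D0 (A : Set ℕ) : Prop := Tendsto (fun N : ℕ => (cnt A N : ℝ) / N) atTop (𝓝 0)

lemma cnt_mono {A B : Set ℕ} (h : A ⊆ B) (N : ℕ) : cnt A N ≤ cnt B N := by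
  classical
  unfold cnt
  refine Finset.card_le_card fun n hn => ?_
  simp only [Finset.mem_filter] at hn ⊢
  exact ⟨hn.1, h hn.2⟩

lemma cnt_union (A B : Set ℕ) (N : ℕ) : cnt (A ∪ B) N ≤ cnt A N + cnt B N := by
  classical
  unfold cnt
  refine le_trans (Finset.card_le_card ?_) (Finset.card_union_le _ _)
  intro n hn
  simp only [Finset.mem_filter, Finset.mem_union, Set.mem_union] at hn ⊢
  tauto

lemma cnt_compl (A : Set ℕ) (N : ℕ) : cnt A N + cnt Aᶜ N = N := by
  classical
  unfold cnt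
  have := Finset.card_filter_add_card_filter_not (s := Finset.range N) (fun n => n ∈ A)
  simpa using this

lemma D0.union {A B : Set ℕ} (hA : D0 A) (hB : D0 B) : D0 (A ∪ B) := by
  unfold D0 at *
  have h := hA.add hB
  rw [add_zero] at h
  refine squeeze_zero (fun N => by positivity) (fun N => ?_) h
  rw [← add_div]
  gcongr
  exact_mod_cast cnt_union A B N

/-- diagonal set of density one -/
lemma diag {A : ℕ → Set ℕ} (hA : ∀ k, D0 (A k)) :
    ∃ S : Set ℕ, Tendsto (fun N : ℕ => (cnt S N : ℝ) / N) atTop (𝓝 1) ∧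
      ∀ k, ∀ᶠ n in atTop, n ∈ S → n ∉ A k := by
  classical
  -- increasing unions
  obtain ⟨B, hB⟩ : ∃ B : ℕ → Set ℕ, ∀ k, B k = ⋃ i ∈ Finset.range (k + 1), A i :=
    ⟨_, fun _ => rfl⟩
  have Bmono : ∀ i j, i ≤ j → B i ⊆ B j := by
    intro i j hij
    rw [hB, hB]
    refine Set.biUnion_subset_biUnion_left fun m hm => ?_
    simp only [Finset.coe_range, Set.mem_Iio, Finset.mem_coe, Finset.mem_range] at hm ⊢
    omega
  have AB : ∀ k, A k ⊆ B k := by
    intro k n hn
    rw [hB]
    simp only [Set.mem_iUnion]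
    exact ⟨k, Finset.mem_range.2 (Nat.lt_succ_self k), hn⟩
  have B0 : ∀ k, D0 (B k) := by
    intro k
    induction k with
    | zero =>
      have : B 0 = A 0 := by rw [hB]; simp
      rw [this]; exact hA 0
    | succ k ih =>
      have : B (k + 1) = B k ∪ A (k + 1) := by
        rw [hB, hB]
        ext n
        simp only [Set.mem_iUnion, Set.mem_union, Finset.mem_range]
        constructor
        · rintro ⟨i, hi, hn⟩
          by_cases h : i = k + 1
          · right; rw [← h]; exact hn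
          · left; exact ⟨i, by omega, hn⟩
        · rintro (⟨i, hi, hn⟩ | hn)
          · exact ⟨i, by omega, hn⟩
          · exact ⟨k + 1, by omega, hn⟩
      rw [this]; exact ih.union (hA _)
  have ev : ∀ k : ℕ, ∀ᶠ M in atTop, ∀ N : ℕ, M ≤ N → (cnt (B k) N : ℝ) / N ≤ 1 / ((k : ℝ) + 1) := by
    intro k
    have h1 : ∀ᶠ N in atTop, (cnt (B k) N : ℝ) / N < 1 / ((k : ℝ) + 1) :=
      (B0 k).eventually (gt_mem_nhds (by positivity))
    obtain ⟨M, hM⟩ := eventually_atTop.1 h1
    filter_upwards [eventually_ge_atTop M] with M' hM' N hN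
    exact (hM N (hM'.trans hN)).le
  obtain ⟨N, hN, hP⟩ := extraction_forall_of_eventually ev
  obtain ⟨T, hT⟩ : ∃ T : Set ℕ, T = {n | ∃ k, N k ≤ n ∧ n < N (k + 1) ∧ n ∈ B k} := ⟨_, rfl⟩
  have loc : ∀ k n, N k ≤ n → ∃ i, k ≤ i ∧ N i ≤ n ∧ n < N (i + 1) := by
    intro k n hkn
    have ex : ∃ j, n < N j := ⟨n + 1, lt_of_lt_of_le (Nat.lt_succ_self n) (hN.le_apply)⟩
    obtain ⟨j, hj⟩ : ∃ j, j = Nat.find ex := ⟨_, rfl⟩
    have hj1 : n < N j := by rw [hj]; exact Nat.find_spec ex
    have hj2 : ∀ i < j, N i ≤ n := fun i hi => by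
      rw [hj] at hi
      exact not_lt.1 (Nat.find_min ex hi)
    have hkj : k < j := by
      by_contra h
      exact absurd (hj1.trans_le (hN.monotone (not_lt.1 h))) (not_lt.2 hkn)
    refine ⟨j - 1, by omega, hj2 _ (by omega), ?_⟩
    have : j - 1 + 1 = j := by omega
    rw [this]; exact hj1
  have cT : ∀ k n, N k ≤ n → n < N (k + 1) → cnt T n ≤ cnt (B k) n := by
    intro k n _ h2
    unfold cnt
    refine Finset.card_le_card fun m hm => ?_
    simp only [Finset.mem_filter, Finset.mem_range] at hm ⊢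
    refine ⟨hm.1, ?_⟩
    have hm2 := hm.2
    rw [hT] at hm2
    obtain ⟨i, h3, h4, h5⟩ := hm2
    have : N i < N (k + 1) := lt_of_le_of_lt h3 (hm.1.trans h2)
    have : i < k + 1 := hN.lt_iff_lt.1 this
    exact Bmono i k (by omega) h5
  have T0 : D0 T := by
    unfold D0
    rw [Metric.tendsto_atTop]
    intro ε hε
    obtain ⟨k, hk⟩ := exists_nat_one_div_lt hε
    refine ⟨N k, fun n hn => ?_⟩
    obtain ⟨i, hi, h1, h2⟩ := loc k n hn
    rw [Real.dist_eq, sub_zero, abs_of_nonneg (by positivity)]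
    have h3 : (cnt T n : ℝ) / n ≤ (cnt (B i) n : ℝ) / n := by
      gcongr
      exact_mod_cast cT i n h1 h2
    have h4 := hP i n h1
    have h5 : 1 / ((i : ℝ) + 1) ≤ 1 / ((k : ℝ) + 1) := by
      gcongr
    linarith
  refine ⟨Tᶜ, ?_, fun k => ?_⟩
  · have h1 : Tendsto (fun N : ℕ => 1 - (cnt T N : ℝ) / N) atTop (𝓝 1) := by
      simpa using (tendsto_const_nhds (x := (1 : ℝ))).sub T0
    refine h1.congr' ?_
    filter_upwards [eventually_gt_atTop 0] with N hN
    have h2 := cnt_compl T N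
    have h3 : (cnt T N : ℝ) + cnt Tᶜ N = N := by exact_mod_cast h2
    have h4 : (N : ℝ) ≠ 0 := by positivity
    field_simp
    linarith
  · filter_upwards [eventually_ge_atTop (N k)] with n hn hS hA
    apply hS
    obtain ⟨i, hi, h1, h2⟩ := loc k n hn
    rw [hT]
    exact ⟨i, h1, h2, Bmono k i hi (AB k hA)⟩

/-- averages and exceptional sets -/
lemma dens {X : ℕ → ℝ} (h : ∀ δ > 0, ∃ D : ℕ → ℝ, (∀ᶠ n in atTop, -δ ≤ D n) ∧
      (∀ᶠ n in atTop, X n ≤ 3 * D n + δ) ∧
      ∀ᶠ N : ℕ in atTop, (∑ n ∈ Finset.range N, D n) / N ≤ δ) {η : ℝ} (hη : 0 < η) :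
    D0 {n | η < X n} := by
  classical
  unfold D0
  rw [Metric.tendsto_atTop]
  intro κ hκ
  obtain ⟨δ, δ0, δ1, δ2⟩ : ∃ δ : ℝ, 0 < δ ∧ δ ≤ η / 2 ∧ 12 * δ ≤ κ / 2 * η := by
    refine ⟨min (η / 2) (κ * η / 24), by positivity, min_le_left _ _, ?_⟩
    have := min_le_right (η / 2) (κ * η / 24)
    linarith
  obtain ⟨D, h1, h2, h3⟩ := h δ δ0
  obtain ⟨n0, hn0⟩ := eventually_atTop.1 (h1.and h2)
  obtain ⟨N1, hN1⟩ := eventually_atTop.1 h3
  -- the initial segment
  obtain ⟨C, hC⟩ : ∃ C : ℝ, C = ∑ n ∈ Finset.range n0, |D n + δ| := ⟨_, rfl⟩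
  have C0 : 0 ≤ C := by rw [hC]; positivity
  obtain ⟨N2, hN2⟩ := exists_nat_gt ((6 / η * C + n0) / (κ / 2))
  refine ⟨max (max N1 N2) (n0 + 1), fun N hN => ?_⟩
  have a1 : N1 ≤ N := (le_max_left _ _).trans ((le_max_left _ _).trans hN)
  have a2 : N2 ≤ N := (le_max_right _ _).trans ((le_max_left _ _).trans hN)
  have a3 : n0 + 1 ≤ N := (le_max_right _ _).trans hN
  have Npos : (0 : ℝ) < N := by exact_mod_cast (show 0 < N by omega)
  rw [Real.dist_eq, sub_zero, abs_of_nonneg (by positivity), div_lt_iff₀ Npos]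
  -- the main inequality
  have key : η / 6 * ((cnt {n | η < X n} N : ℝ) - n0) ≤
      (∑ n ∈ Finset.range N, (D n + δ)) + C := by
    have e1 : ∑ n ∈ Finset.range N, (D n + δ) =
        ∑ n ∈ Finset.range n0, (D n + δ) + ∑ n ∈ Finset.Ico n0 N, (D n + δ) :=
      (Finset.sum_range_add_sum_Ico _ (by omega)).symm
    have e2 : -C ≤ ∑ n ∈ Finset.range n0, (D n + δ) := by
      rw [hC, ← Finset.sum_neg_distrib]
      exact Finset.sum_le_sum fun n _ => neg_abs_le _
    have e3 : η / 6 * (((Finset.Ico n0 N).filter (fun n => n ∈ {n | η < X n})).card : ℝ) ≤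
        ∑ n ∈ Finset.Ico n0 N, (D n + δ) := by
      have : η / 6 * (((Finset.Ico n0 N).filter (fun n => n ∈ {n | η < X n})).card : ℝ) =
          ∑ n ∈ (Finset.Ico n0 N).filter (fun n => n ∈ {n | η < X n}), η / 6 := by
        rw [Finset.sum_const, nsmul_eq_mul, mul_comm]
      rw [this]
      refine le_trans (Finset.sum_le_sum (g := fun n => D n + δ) fun n hn => ?_)
        (Finset.sum_le_sum_of_subset_of_nonneg (Finset.filter_subset _ _) fun n hn _ => ?_)
      · simp only [Finset.mem_filter, Finset.mem_Ico, Set.mem_setOf_eq] at hn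
        have := (hn0 n hn.1.1).2
        linarith [hn.2]
      · rw [Finset.mem_Ico] at hn
        have := (hn0 n hn.1).1
        linarith
    have e4 : (cnt {n | η < X n} N : ℝ) ≤ n0 +
        (((Finset.Ico n0 N).filter (fun n => n ∈ {n | η < X n})).card : ℝ) := by
      have : cnt {n | η < X n} N ≤ n0 +
          ((Finset.Ico n0 N).filter (fun n => n ∈ {n | η < X n})).card := by
        unfold cnt
        have hs : (Finset.range N).filter (fun n => n ∈ {n | η < X n}) ⊆
            Finset.range n0 ∪ (Finset.Ico n0 N).filter (fun n => n ∈ {n | η < X n}) := by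
          intro n hn
          simp only [Finset.mem_filter, Finset.mem_union, Finset.mem_range, Finset.mem_Ico] at hn ⊢
          by_cases h : n < n0
          · left; exact h
          · right; exact ⟨⟨not_lt.1 h, hn.1⟩, hn.2⟩
        refine (Finset.card_le_card hs).trans ((Finset.card_union_le _ _).trans ?_)
        rw [Finset.card_range]
      exact_mod_cast this
    have e5 : 0 < η / 6 := by positivity
    nlinarith
  have s1 : ∑ n ∈ Finset.range N, (D n + δ) ≤ 2 * δ * N := by
    have h4 := hN1 N a1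
    rw [div_le_iff₀ Npos] at h4
    rw [Finset.sum_add_distrib, Finset.sum_const, Finset.card_range, nsmul_eq_mul]
    linarith
  have s2 : (6 / η * C + n0) < κ / 2 * N := by
    rw [div_lt_iff₀ (by positivity)] at hN2
    have : (N2 : ℝ) ≤ N := by exact_mod_cast a2
    nlinarith
  have s3 : (cnt {n | η < X n} N : ℝ) - n0 ≤ 6 / η * (2 * δ * N + C) := by
    have : (cnt {n | η < X n} N : ℝ) - n0 = 6 / η * (η / 6 * ((cnt {n | η < X n} N : ℝ) - n0)) := by
      field_simp
    rw [this]
    exact mul_le_mul_of_nonneg_left (by linarith) (by positivity)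
  have s4 : 6 / η * (2 * δ * N) ≤ κ / 2 * N := by
    have : 6 / η * (2 * δ * N) = 12 * δ / η * N := by ring
    rw [this]
    refine mul_le_mul_of_nonneg_right ?_ Npos.le
    rw [div_le_iff₀ hη]; exact δ2
  have s5 : 6 / η * (2 * δ * N + C) = 6 / η * (2 * δ * N) + 6 / η * C := by ring
  linarith

end

end Pool.Agent.K9h37.GF
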